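import Pool.Agent.Helper38.VF.Goals2

/-!
# Project BT: finitely generated groups with a bound on the orders of the finite subgroups

The packets FAC, CHN, LIM, LOC, PTH, ORA, ORB, ORC, TOB, TOD, TOE, KND of `Helper27.VF.Goals` and ADJ,
ACT, FOX, KUR, RTR, TR1 of `Helper38.VF.Goals2` are used unchanged (they do not use
torsion-freeness). The stabilizers of the cuts are finite instead of trivial.
-/

set_option autoImplicit false

namespace Pool.Agent.Helper61.BT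

open Pool.Agent.Helper27.VF Pool.Agent.Helper38.VF

universe u

/-! ### Part 1: cuts -/

/-- **FRB.** As FRD. (May assume `LocStmt`, `OrcStmt`.)

Proof. First part: as FRD (1). Second part: `g ↦ g • v` is injective and maps the stabilizer of `d`
into `sep d`, for a fixed `v ∈ sep d`; `sep d` is finite and nonempty (see FRD (2)). -/
def FrbStmt : Prop := ∀ (A W : Type u) [Group A] [MulAction A W] (G G₀ : SimpleGraph W) (w : W)
  (p : Ultrafilter W), Stg A G G₀ w p → ∀ k : ℕ, Mn A G p k →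
  (∃ 𝓕 : Set (Set W × Set W), 𝓕.Finite ∧ 𝓕 ⊆ DD A G p k ∧
    ∀ d ∈ DD A G p k, ∃ f ∈ 𝓕, ∃ g ∈ BB A G p k, d = tr g f) ∧
  ∀ d ∈ SS A G p k, {g : A | tr g d = d}.Finite

/-- **TAB.** As TOA (copy it). (May assume `FacStmt`, `PthStmt`, `OrbStmt`, `FrbStmt`.) -/
def TabStmt : Prop := ∀ (A W : Type u) [Group A] [MulAction A W] (G G₀ : SimpleGraph W) (w : W)
  (p : Ultrafilter W), Stg A G G₀ w p → ∀ k : ℕ, Mn A G p k →
  (∀ g ∈ BB A G p k, ∀ x ∈ Kp A G p k, g • x ∈ Kp A G p k) ∧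
  ∃ F : Set W, F.Finite ∧ F ⊆ Kp A G p k ∧
    ∀ x ∈ Kp A G p k, ∃ g ∈ BB A G p k, ∃ f ∈ F, g • f = x

/-- **TCB.** As TOC: each cut `tr g⁻¹ d` determines `g` up to finitely many (FRB).
(May assume `PthStmt`, `TabStmt`, `OrbStmt`, `FrbStmt`.) -/
def TcbStmt : Prop := ∀ (A W : Type u) [Group A] [MulAction A W] (G G₀ : SimpleGraph W) (w : W)
  (p : Ultrafilter W), Stg A G G₀ w p → ∀ k : ℕ, Mn A G p k → Nar G (Kp A G p k)

/-- **TFB.** As TOF (copy it). (May assume `TabStmt`, `TobStmt`, `TcbStmt`, `TodStmt`, `ToeStmt`.) -/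
def TfbStmt : Prop := ∀ (A W : Type u) [Group A] [MulAction A W] (G G₀ : SimpleGraph W) (w : W)
  (p : Ultrafilter W), Stg A G G₀ w p → ∀ k : ℕ, Mn A G p k →
  ∃ (W' : Type u) (_ : MulAction (BB A G p k) W') (G' G₀' : SimpleGraph W') (w' : W')
    (p' : Ultrafilter W'), Stg (BB A G p k) G' G₀' w' p' ∧
      (Con (BB A G p k) G' p' → Con A G p)

/-! ### Part 2: derivations -/

/-- `A` acts linearly on the real vector space `M`. -/
def Lin (A M : Type u) [Group A] [AddCommGroup M] [Module ℝ M] [DistribMulAction A M] : Prop :=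
  ∀ (a : A) (r : ℝ) (m : M), a • (r • m) = r • (a • m)

/-- `v` or `v - y v`. -/
def Uv {A M : Type u} [Group A] [AddCommGroup M] [DistribMulAction A M] (o : Option A) (v : M) : M :=
  match o with
  | none => v
  | some y => v - y • v

/-- Labels with finite stabilizers (compare `Lab`). -/
structure Labf {A : Type u} [Group A] (B : Subgroup A) {Λ : Type u} (lam : A → Λ) : Prop where
  h1 : ∀ b ∈ B, ∀ g g' : A, lam g = lam g' → lam (b * g) = lam (b * g')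
  h2 : ∀ g : A, {b | b ∈ B ∧ lam (b * g) = lam g}.Finite
  h3 : ∀ x y : A, {q : A ⧸ B | ∃ g : A, (g : A ⧸ B) = q ∧ lam (g⁻¹ * x) ≠ lam (g⁻¹ * y)}.Finite
  h4 : ∀ b ∈ B, ∀ g : A, g ∉ B → lam (g⁻¹ * b) = lam g⁻¹
  h6 : ∀ b ∈ B, ∀ g : A, g ∉ B → lam b ≠ lam g

/-- **LMB.** As LAM (the inside of DRA). (May assume `PthStmt`, `OraStmt`, `OrbStmt`, `OrcStmt`,
`FrbStmt`.)

Proof. `h2`: for `g ∈ BB` only `b = 1`; for `g ∉ BB`, `lam g = inr d`, it is the stabilizer of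
`d`. -/
def LmbStmt : Prop := ∀ (A W : Type u) [Group A] [MulAction A W] (G G₀ : SimpleGraph W) (w : W)
  (p : Ultrafilter W), Stg A G G₀ w p → ∀ k : ℕ, Mn A G p k →
  ∃ (Λ : Type u) (lam : A → Λ), Labf (BB A G p k) lam ∧
    ∀ g g' : A, g ∉ BB A G p k → g' ∉ BB A G p k →
      (∀ d ∈ DD A G p k, (Inn p g d.2 ↔ Inn p g' d.2)) → lam g = lam g'

/-- **DRB.** Extension of derivations, real modules. (Compare DER.)

Proof. For a representative `g₀` of an orbit of `B` on the labels let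
`E = {b ∈ B | lam (b g₀) = lam g₀}`, a finite subgroup, and `c = |E|⁻¹ ∑_{e ∈ E} f e`. Then
`f e + e c = c` for `e ∈ E` (`f (e e') = f e + e f e'`), so `C (b g₀) = f b + b c` depends only on
`lam (b g₀)`: if `lam (b g₀) = lam (b' g₀)` then `b' = b e`. The rest as DER:
`C (b g) = f b + b C g`, `δ x = ∑ᶠ over the cosets g B of (g C (g⁻¹ x) - g C (g⁻¹))`, minus
`x ↦ x C 1 - C 1`. -/
def DrbStmt : Prop := ∀ (A : Type u) [Group A] (B : Subgroup A) (Λ : Type u) (lam : A → Λ),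
  Labf B lam → ∀ (M : Type u) [AddCommGroup M] [Module ℝ M] [DistribMulAction A M], Lin A M →
  ∀ f : B → M, IsDerOn B f → ∃ δ : A → M, IsDer δ ∧ ∀ b : B, δ b = f b

/-- **DXB.** (Compare DEX.)

Proof. `E = {b ∈ B | lam (b x) = lam x}`. For `v` with `e v = v` for all `e ∈ E` let `C (g) = b v` if
`lam g = lam (b x)`, `b ∈ B` (well defined), and `0` if there is no such `b`. `C (b g) = b C g`,
`δ x = ∑ᶠ over the cosets g B of (g C (g⁻¹ x) - g C (g⁻¹))` is a derivation, `0` on `B` (`h4`, `h6`),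
and for `δ x` only the cosets `B` (`C x - C 1 = v`, `h6`) and `x B` contribute
(`x C 1 - x C (x⁻¹) = - x C (x⁻¹)`): `δ x = v` if there is no `b ∈ B` with `lam x⁻¹ = lam (b x)`, and
`δ x = v - y v` with `y = x b ∉ B`, so `y ∉ E`, otherwise. -/
def DxbStmt : Prop := ∀ (A : Type u) [Group A] (B : Subgroup A) (Λ : Type u) (lam : A → Λ),
  Labf B lam → ∀ x : A, x ∉ B →
  (∀ g : A, g ∉ B → x⁻¹ * g ∉ B → lam (g⁻¹ * x) = lam g⁻¹) →
  ∃ (E : Subgroup A) (o : Option A), (E : Set A).Finite ∧ (∀ y, o = some y → y ∉ E) ∧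
    ∀ (M : Type u) [AddCommGroup M] [Module ℝ M] [DistribMulAction A M], Lin A M →
      ∀ v : M, (∀ e ∈ E, e • v = v) →
        ∃ δ : A → M, IsDer δ ∧ (∀ b ∈ B, δ b = 0) ∧ δ x = Uv o v

/-- One step of the chain. -/
def Stp (A : Type u) [Group A] (B : Subgroup A) : Prop :=
  (∀ (M : Type u) [AddCommGroup M] [Module ℝ M] [DistribMulAction A M], Lin A M →
    ∀ f : B → M, IsDerOn B f → ∃ δ : A → M, IsDer δ ∧ ∀ b : B, δ b = f b) ∧
  ∃ (x : A) (E : Subgroup A) (o : Option A), (E : Set A).Finite ∧ (∀ y, o = some y → y ∉ E) ∧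
    ∀ (M : Type u) [AddCommGroup M] [Module ℝ M] [DistribMulAction A M], Lin A M →
      ∀ v : M, (∀ e ∈ E, e • v = v) →
        ∃ δ : A → M, IsDer δ ∧ (∀ b ∈ B, δ b = 0) ∧ δ x = Uv o v

/-- **DVB.** (May assume `LmbStmt`, `AdjStmt`, `DrbStmt`, `DxbStmt`, `OrbStmt`.)

Proof. `BB ≠ ⊤` by ORB (3); `x` from ADJ, for `g ∉ BB`, `x⁻¹ g ∉ BB` the elements `g⁻¹ x` and `g⁻¹`
are not in `BB` and are on the same sides, so have the same label. -/
def DvbStmt : Prop := ∀ (A W : Type u) [Group A] [MulAction A W] (G G₀ : SimpleGraph W) (w : W)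
  (p : Ultrafilter W), Stg A G G₀ w p → ∀ k : ℕ, Mn A G p k → (SS A G p k).Nonempty →
  Stp A (BB A G p k)

/-- A triangular system of `k` values of derivations. -/
def Tri (A : Type u) [Group A] (k : ℕ) : Prop :=
  ∃ (x : Fin k → A) (E : Fin k → Subgroup A) (o : Fin k → Option A),
    (∀ i, (E i : Set A).Finite) ∧ (∀ i y, o i = some y → y ∉ E i) ∧
    ∀ (M : Type u) [AddCommGroup M] [Module ℝ M] [DistribMulAction A M], Lin A M →
      ∀ (i : Fin k) (v : M), (∀ e ∈ E i, e • v = v) →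
        ∃ δ : A → M, IsDer δ ∧ δ (x i) = Uv (o i) v ∧ ∀ j, i < j → δ (x j) = 0

/-- **TRS.** The step.

Proof. `x' = Fin.cons x (fun i => (x i : A))`, `E' = Fin.cons E (fun i => (E i).map B.subtype)`,
`o' = Fin.cons o (fun i => (o i).map (↑))`. For `i = 0` the derivation of `Stp` (it vanishes on `B`);
for `i = i' + 1` extend the derivation of `B` (with `M` restricted to `B`). -/
def TrsStmt : Prop := ∀ (A : Type u) [Group A] (B : Subgroup A), Stp A B →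
  ∀ k : ℕ, Tri B k → Tri A (k + 1)

/-- **INB.** As IN2. (May assume `DvbStmt`, `TrsStmt`, `TfbStmt`, `FacStmt`.) -/
def InbStmt : Prop := ∀ (k : ℕ) (A W : Type u) [Group A] [MulAction A W] (G G₀ : SimpleGraph W)
  (w : W) (p : Ultrafilter W), Stg A G G₀ w p → ¬ Con A G p → Tri A k

/-! ### Part 3: Hilbert spaces -/

/-- **PRJ.** The projection onto the closure of the values `Uv o v`.

Proof. `V` = closure of the submodule of these values, `π` = orthogonal projection onto `V`. It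
commutes with the right translations, as they are isometries (RTR) which commute with the left
action, so map `V` onto `V`. `1 / (2 N) ≤ (π δ₁) 1 = ‖π δ₁‖²`: let `v` be the indicator function of
`E`, `z = Uv o v ∈ V`: `z 1 = 1` (`y ∉ E`), `‖z‖² ≤ 2 |E| ≤ 2 N`, and
`1 = ⟪z, δ₁⟫ = ⟪z, π δ₁⟫ ≤ ‖z‖ ‖π δ₁‖`. -/
def PrjStmt : Prop := ∀ (A : Type u) [Group A] [DistribMulAction A (L2 A)], LeftAct A →
  ∀ (E : Subgroup A) (N : ℕ) (o : Option A), (E : Set A).Finite → Nat.card E ≤ N →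
  (∀ y, o = some y → y ∉ E) →
  ∃ π : L2 A →L[ℝ] L2 A, (∀ f g : L2 A, inner ℝ (π f) g = inner ℝ f (π g)) ∧
    (∀ f, π (π f) = π f) ∧
    (∀ f, π f ∈ closure {z : L2 A | ∃ v : L2 A, (∀ e ∈ E, e • v = v) ∧ z = Uv o v}) ∧
    (∀ (h : A) (f f' : L2 A), (∀ a, f' a = f (a * h)) → ∀ a, (π f') a = (π f) (a * h)) ∧
    ∀ δ₁ : L2 A, (∀ a, δ₁ a = (open Classical in if a = 1 then 1 else 0)) →
      1 / (2 * (N : ℝ)) ≤ (π δ₁) 1

/-- **TRG.** Triangular systems.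

Proof. By downward induction on `l ≤ k`: there is `d ∈ D` with `‖π i (d i) - w i‖ < η` for all
`i ≥ l`. Step: `w' = w l - π l (d l)`, take `d'` for `l`, `w'` and `η / (‖π l‖ + 1)`, and `d + d'`. -/
def TrgStmt : Prop := ∀ (M : Type u) [NormedAddCommGroup M] [NormedSpace ℝ M] (k : ℕ)
  (D : AddSubgroup (Fin k → M)) (π : Fin k → M →L[ℝ] M), (∀ i f, π i (π i f) = π i f) →
  (∀ (i : Fin k) (w : M), π i w = w → ∀ η : ℝ, 0 < η →
    ∃ d ∈ D, ‖d i - w‖ < η ∧ ∀ j, i < j → d j = 0) →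
  ∀ w : Fin k → M, (∀ i, π i (w i) = w i) → ∀ η : ℝ, 0 < η →
    ∃ d ∈ D, ∀ i, ‖π i (d i) - w i‖ < η

/-- **T2B.** As TR2, with a projection. (helper61) -/
def T2bStmt : Prop := ∀ (H₁ H₂ : Type u) [NormedAddCommGroup H₁] [InnerProductSpace ℝ H₁]
  [CompleteSpace H₁] [NormedAddCommGroup H₂] [InnerProductSpace ℝ H₂] [CompleteSpace H₂]
  (C : H₁ →L[ℝ] H₂) (P : H₂ →L[ℝ] H₂), (∀ f g, inner ℝ (P f) g = inner ℝ f (P g)) →
  (∀ f, P (P f) = P f) → (∀ x, P (C x) = C x) → ∀ (k : ℕ) (v : Fin k → H₂),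
  (∀ j, P (v j) ∈ closure (Set.range C)) → ∀ η : ℝ, 0 < η →
  ∃ S : H₂ →L[ℝ] H₂, (∀ x : H₁, inner ℝ (C.adjoint (S (C x))) x ≤ ‖x‖ ^ 2) ∧
    (∀ j, ‖P (v j)‖ ^ 2 - η ≤ inner ℝ (S (C (C.adjoint (v j)))) (v j)) ∧
    ∀ (U₁ : H₁ ≃ₗᵢ[ℝ] H₁) (U₂ : H₂ ≃ₗᵢ[ℝ] H₂), (∀ x, C (U₁ x) = U₂ (C x)) →
      (∀ y, S (U₂ y) = U₂ (S y)) ∧ ∀ y, C.adjoint (U₂ y) = U₁ (C.adjoint y)

/-- **TCH.** The trace inequality (compare TRC, copy `Pool.Agent.Helper24.VF.trc`). (May assume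
`Tr1Stmt`, `T2bStmt`, `RtrStmt`.)

Proof. T2B with `v j = lp.single 2 (j, 1) 1`; `‖P (v j)‖² = ⟪P (v j), v j⟫ = (P (v j)) (j, 1)`, so
`tr' P - k η ≤ tr' (S C C†) = tr' (C† S C) ≤ n` (TR1 for `S C` and `C†`). -/
def TchStmt : Prop := ∀ (A : Type u) [Group A] (n k : ℕ)
  (C : L2 (Fin n × A) →L[ℝ] L2 (Fin k × A)) (P : L2 (Fin k × A) →L[ℝ] L2 (Fin k × A)), Eqv C →
  (∀ f g, inner ℝ (P f) g = inner ℝ f (P g)) → (∀ f, P (P f) = P f) → (∀ x, P (C x) = C x) →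
  (∀ f, P f ∈ closure (Set.range C)) → tr' P ≤ n

/-- **PRK.** The diagonal projection. (May assume `KurStmt`.)

Proof. `(P f) (i, a) = (π i (f (i, ·))) a`. The inner product of `L2 (Fin k × A)` is the sum of the
inner products of the rows. -/
def PrkStmt : Prop := ∀ (A : Type u) [Group A] (k : ℕ) (π : Fin k → L2 A →L[ℝ] L2 A),
  (∀ i, ∀ f g : L2 A, inner ℝ (π i f) g = inner ℝ f (π i g)) → (∀ i f, π i (π i f) = π i f) →
  (∀ i, ∀ (h : A) (f f' : L2 A), (∀ a, f' a = f (a * h)) → ∀ a, (π i f') a = (π i f) (a * h)) →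
  ∀ N : ℕ, (∀ i, ∀ δ₁ : L2 A, (∀ a, δ₁ a = (open Classical in if a = 1 then 1 else 0)) →
    1 / (2 * (N : ℝ)) ≤ (π i δ₁) 1) →
  ∃ P : L2 (Fin k × A) →L[ℝ] L2 (Fin k × A), Eqv P ∧
    (∀ f g, inner ℝ (P f) g = inner ℝ f (P g)) ∧ (∀ f, P (P f) = P f) ∧
    (∀ (f : L2 (Fin k × A)) (e : Fin k → L2 A), (∀ i a, e i a = f (i, a)) →
      ∀ i a, (P f) (i, a) = (π i (e i)) a) ∧
    (k : ℝ) / (2 * N) ≤ tr' P

/-- **RKB.** The rank inequality. (May assume `ActStmt`, `FoxStmt`, `KurStmt`, `PrjStmt`, `TrgStmt`,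
`PrkStmt`, `TchStmt`.)

Proof. `M = L2 A` with ACT (it is `Lin`). Take `x`, `E`, `o` from `Tri`, `C` from FOX, `π i` from PRJ,
`P` from PRK; apply TCH to `P C`: `D` = the values `(δ (x i))_i` of the derivations, TRG (its
hypothesis: `w = π i w` is in the closure of the values `Uv (o i) v`, and `Tri`), KUR for `n` (the
values `δ (x i)` are `C e`). So `k / (2 N) ≤ tr' P ≤ n`. `N ≥ 1` (trivial subgroup). -/
def RkbStmt : Prop := ∀ (A : Type u) [Group A] (n k N : ℕ) (a : Fin n → A),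
  Subgroup.closure (Set.range a) = ⊤ → (∀ F : Subgroup A, (F : Set A).Finite → Nat.card F ≤ N) →
  Tri A k → k ≤ 2 * N * n

/-- **APB.** (May assume `InbStmt`, `RkbStmt`, `KndStmt`; compare AP2, `Pool.Agent.Helper58.VF.AP2`.)

Proof. `A = Γ`, `W = Γ` with left multiplication (`A : Type u`; `MulAction Γ Γ`), `G = cay S`,
`G₀ = cay S₀`, `S₀ ⊆ S` finite and generating (`Γ` is finitely generated), `w = 1`, `p` a
nonprincipal ultrafilter containing `S`. `Con` holds by INB and RKB. -/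
def ApbStmt : Prop := ∀ (Γ : Type u) [Group Γ], Group.FG Γ →
  (∃ N : ℕ, ∀ F : Subgroup Γ, (F : Set Γ).Finite → Nat.card F ≤ N) → ∀ S : Set Γ,
  Subgroup.closure S = ⊤ → (∀ s ∈ S, s⁻¹ ∈ S) → (1 : Γ) ∉ S → S.Infinite →
  ∃ φ : ℕ → Set Γ,
    (∀ i, ((SimpleGraph.fromRel fun a b : Γ => a⁻¹ * b ∈ S).induce (φ i)).Connected) ∧
    (∀ i j, i ≠ j → Disjoint (φ i) (φ j)) ∧
    ∀ i j, i ≠ j → ∃ a ∈ φ i, ∃ b ∈ φ j,
      (SimpleGraph.fromRel fun a b : Γ => a⁻¹ * b ∈ S).Adj a b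

end Pool.Agent.Helper61.BT
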