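import Pool.Agent.Helper61.BT.Goals
import Pool.Agent.Helper61.VF.TR2

/-! Packet BT-T2B: approximation in Hilbert spaces, with a projection. -/

set_option autoImplicit false

namespace Pool.Agent.Helper61.BT

open Pool.Agent.Helper27.VF Pool.Agent.Helper38.VF Pool.Agent.Helper61.VF

universe u

theorem core {H₁ H₂ : Type u} [NormedAddCommGroup H₁] [InnerProductSpace ℝ H₁]
    [CompleteSpace H₁] [NormedAddCommGroup H₂] [InnerProductSpace ℝ H₂] [CompleteSpace H₂]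
    (C : H₁ →L[ℝ] H₂) (k : ℕ) (v : Fin k → H₂)
    (hC : ∀ j, v j ∈ closure (Set.range C)) (η : ℝ) (hη : 0 < η) :
    ∃ S : H₂ →L[ℝ] H₂, (∃ ε : ℝ, 0 < ε ∧ (∀ y, C (C.adjoint (S y)) + ε • S y = y) ∧
      ∀ y, S (C (C.adjoint y) + ε • y) = y) ∧
    (∀ x : H₁, inner ℝ (C.adjoint (S (C x))) x ≤ ‖x‖ ^ 2) ∧
    (∀ j, ‖v j‖ ^ 2 - η ≤ inner ℝ (S (C (C.adjoint (v j)))) (v j)) ∧
    ∀ (U₁ : H₁ ≃ₗᵢ[ℝ] H₁) (U₂ : H₂ ≃ₗᵢ[ℝ] H₂), (∀ x, C (U₁ x) = U₂ (C x)) →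
      (∀ y, S (U₂ y) = U₂ (S y)) ∧ ∀ y, C.adjoint (U₂ y) = U₁ (C.adjoint y) := by
  have hx : ∀ j, ∃ x : H₁, ‖v j - C x‖ ≤ η / (2 * (‖v j‖ + 1)) := by
    intro j
    have hpos : 0 < η / (2 * (‖v j‖ + 1)) := by positivity
    obtain ⟨z, ⟨x, rfl⟩, hx⟩ := Metric.mem_closure_iff.1 (hC j) _ hpos
    exact ⟨x, by rw [← dist_eq_norm]; exact hx.le⟩
  choose x hx using hx
  obtain ⟨D, hD⟩ : ∃ D : ℝ, D = ∑ j, ‖x j‖ * ‖v j‖ := ⟨_, rfl⟩
  have hD0 : 0 ≤ D := by rw [hD]; exact Finset.sum_nonneg fun j _ => by positivity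
  have hDj : ∀ j, ‖x j‖ * ‖v j‖ ≤ D := by
    intro j
    rw [hD]
    exact Finset.single_le_sum (f := fun j => ‖x j‖ * ‖v j‖) (fun j _ => by positivity)
      (Finset.mem_univ j)
  obtain ⟨r, hr⟩ : ∃ r : ℝ, r = η / (2 * (D + 1)) := ⟨_, rfl⟩
  have hr0 : 0 < r := by rw [hr]; positivity
  have hε : 0 < r ^ 2 := by positivity
  obtain ⟨S, hS1, hS2⟩ := reg C (r ^ 2) hε
  -- the basic identity
  have hid : ∀ y z : H₂, C (C.adjoint y) + r ^ 2 • y = z →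
      ‖C.adjoint y‖ ^ 2 + r ^ 2 * ‖y‖ ^ 2 = inner ℝ z y := by
    intro y z h
    rw [← h, inner_add_left, inner_smul_left, real_inner_self_eq_norm_sq,
      ← ContinuousLinearMap.adjoint_inner_right, real_inner_self_eq_norm_sq]
    rfl
  have hCx : ∀ x : H₁, ‖C.adjoint (S (C x))‖ ≤ ‖x‖ ∧ r ^ 2 * ‖S (C x)‖ ^ 2 ≤ ‖x‖ ^ 2 := by
    intro x
    have h1 := hid (S (C x)) (C x) (hS1 (C x))
    have h2 : inner ℝ (C x) (S (C x)) ≤ ‖x‖ * ‖C.adjoint (S (C x))‖ := by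
      rw [← ContinuousLinearMap.adjoint_inner_right]
      exact real_inner_le_norm _ _
    have h3 : 0 ≤ r ^ 2 * ‖S (C x)‖ ^ 2 := by positivity
    have h4 : ‖C.adjoint (S (C x))‖ ^ 2 ≤ ‖x‖ * ‖C.adjoint (S (C x))‖ := by linarith
    have h5 : ‖C.adjoint (S (C x))‖ ≤ ‖x‖ := by
      rcases (norm_nonneg (C.adjoint (S (C x)))).eq_or_lt with h | h
      · rw [← h]
        exact norm_nonneg x
      · rw [sq] at h4
        exact le_of_mul_le_mul_right h4 h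
    refine ⟨h5, ?_⟩
    have h6 : 0 ≤ ‖C.adjoint (S (C x))‖ ^ 2 := by positivity
    have h7 : ‖x‖ * ‖C.adjoint (S (C x))‖ ≤ ‖x‖ * ‖x‖ :=
      mul_le_mul_of_nonneg_left h5 (norm_nonneg x)
    nlinarith
  have hz : ∀ z : H₂, r ^ 2 * ‖S z‖ ≤ ‖z‖ := by
    intro z
    have h1 := hid (S z) z (hS1 z)
    have h2 : inner ℝ z (S z) ≤ ‖z‖ * ‖S z‖ := real_inner_le_norm _ _
    have h3 : 0 ≤ ‖C.adjoint (S z)‖ ^ 2 := by positivity
    have h4 : r ^ 2 * ‖S z‖ * ‖S z‖ ≤ ‖z‖ * ‖S z‖ := by nlinarith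
    rcases (norm_nonneg (S z)).eq_or_lt with h | h
    · rw [← h, mul_zero]
      exact norm_nonneg z
    · exact le_of_mul_le_mul_right h4 h
  refine ⟨S, ⟨r ^ 2, hε, hS1, hS2⟩, ?_, ?_, ?_⟩
  · intro x
    have h1 := (hCx x).1
    calc inner ℝ (C.adjoint (S (C x))) x ≤ ‖C.adjoint (S (C x))‖ * ‖x‖ := real_inner_le_norm _ _
      _ ≤ ‖x‖ * ‖x‖ := mul_le_mul_of_nonneg_right h1 (norm_nonneg x)
      _ = ‖x‖ ^ 2 := (sq _).symm
  · intro j
    have h1 : S (C (C.adjoint (v j))) = v j - r ^ 2 • S (v j) := by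
      have h := hS2 (v j)
      rw [map_add, map_smul] at h
      exact eq_sub_of_add_eq h
    rw [h1, inner_sub_left, real_inner_self_eq_norm_sq]
    have h2 : inner ℝ (r ^ 2 • S (v j)) (v j) ≤ ‖r ^ 2 • S (v j)‖ * ‖v j‖ :=
      real_inner_le_norm _ _
    have h3 : ‖r ^ 2 • S (v j)‖ ≤ η / (2 * (‖v j‖ + 1)) + r * ‖x j‖ := by
      have h4 : r ^ 2 • S (v j) = r ^ 2 • S (v j - C (x j)) + r ^ 2 • S (C (x j)) := by
        rw [← smul_add, ← map_add, sub_add_cancel]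
      rw [h4]
      refine le_trans (norm_add_le _ _) (add_le_add ?_ ?_)
      · rw [norm_smul, Real.norm_of_nonneg hε.le]
        exact le_trans (hz _) (hx j)
      · rw [norm_smul, Real.norm_of_nonneg hε.le]
        have h5 := (hCx (x j)).2
        have h6 : (r * ‖S (C (x j))‖) ^ 2 ≤ ‖x j‖ ^ 2 := by
          rw [mul_pow]
          exact h5
        have h7 : r * ‖S (C (x j))‖ ≤ ‖x j‖ :=
          (pow_le_pow_iff_left₀ (by positivity) (by positivity) (by norm_num)).1 h6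
        calc r ^ 2 * ‖S (C (x j))‖ = r * (r * ‖S (C (x j))‖) := by ring
          _ ≤ r * ‖x j‖ := mul_le_mul_of_nonneg_left h7 hr0.le
    have h8 : ‖r ^ 2 • S (v j)‖ * ‖v j‖ ≤ η := by
      have h9 : ‖r ^ 2 • S (v j)‖ * ‖v j‖ ≤
          (η / (2 * (‖v j‖ + 1)) + r * ‖x j‖) * ‖v j‖ :=
        mul_le_mul_of_nonneg_right h3 (norm_nonneg _)
      have h10 : η / (2 * (‖v j‖ + 1)) * ‖v j‖ ≤ η / 2 := by
        rw [div_mul_eq_mul_div, div_le_div_iff₀ (by positivity) (by norm_num)]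
        nlinarith [norm_nonneg (v j)]
      have h11 : r * ‖x j‖ * ‖v j‖ ≤ η / 2 := by
        have h12 : r * (‖x j‖ * ‖v j‖) ≤ r * D := mul_le_mul_of_nonneg_left (hDj j) hr0.le
        have h13 : r * D ≤ η / 2 := by
          rw [hr, div_mul_eq_mul_div, div_le_div_iff₀ (by positivity) (by norm_num)]
          nlinarith
        rw [mul_assoc]
        linarith
      rw [add_mul] at h9
      linarith
    linarith
  · intro U₁ U₂ hU
    have hadj : ∀ y, C.adjoint (U₂ y) = U₁ (C.adjoint y) := by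
      intro y
      refine ext_inner_right ℝ fun z => ?_
      obtain ⟨z', rfl⟩ := U₁.surjective z
      rw [ContinuousLinearMap.adjoint_inner_left, hU, LinearIsometryEquiv.inner_map_map,
        LinearIsometryEquiv.inner_map_map, ContinuousLinearMap.adjoint_inner_left]
    refine ⟨?_, hadj⟩
    intro y
    have h1 : C (C.adjoint (U₂ (S y))) + r ^ 2 • U₂ (S y) = U₂ y := by
      rw [hadj, hU, ← map_smul, ← map_add, hS1]
    rw [← h1, hS2]


theorem t2b : T2bStmt.{u} := by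
  intro H₁ H₂ _ _ _ _ _ _ C P hPs hPP hPC k v hv η hη
  obtain ⟨S, ⟨ε, hε, hS1, hS2⟩, h1, h2, h3⟩ := core C k (fun j => P (v j)) hv η hη
  refine ⟨S, h1, ?_, h3⟩
  intro j
  have hCP : ∀ y, C.adjoint (P y) = C.adjoint y := by
    intro y
    apply ext_inner_right ℝ
    intro x
    rw [ContinuousLinearMap.adjoint_inner_left, ContinuousLinearMap.adjoint_inner_left, hPs, hPC]
  have h4 := h2 j
  simp only [hCP] at h4
  refine le_trans h4 (le_of_eq ?_)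
  rw [← hPs]
  congr 1
  have h5 : S (C (C.adjoint (v j))) =
      ε⁻¹ • (C (C.adjoint (v j)) - C (C.adjoint (S (C (C.adjoint (v j)))))) := by
    have h6 := hS1 (C (C.adjoint (v j)))
    rw [eq_inv_smul_iff₀ hε.ne']
    exact eq_sub_of_add_eq' h6
  rw [h5, map_smul, map_sub, hPC, hPC]

end Pool.Agent.Helper61.BT
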